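import Pool.Agent.MP_ea150c_mp.H49.SpecG
import Pool.Agent.MP_ea150c_mp.H15.S1

/-! The Cech differential, the derivations `ξ, ξ'` and the class `cc`. -/

set_option linter.unusedSectionVars false

namespace Pool.Agent.MP_ea150c_mp.H55

open Pool.Agent.MP_ea150c_mp.H49

section Cech
variable {O E I : Type} [CommRing O] [AddCommGroup E] [Module O E] [LinearOrder I]

/-- The sign of `i` in `J`. -/
def sg (O : Type) [CommRing O] (J : Finset I) (i : I) : O := (-1 : O) ^ (J.filter (· < i)).card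

theorem sg_sq (J : Finset I) (i : I) : sg O J i * sg O J i = 1 := by
  rw [sg, ← mul_pow]; simp

theorem sg_insert {J : Finset I} {i : I} (hi : i ∉ J) (j : I) :
    sg O (insert i J) j = if i < j then -sg O J j else sg O J j := by
  unfold sg
  rw [Finset.filter_insert]
  split_ifs with h
  · rw [Finset.card_insert_of_notMem (fun h' => hi (Finset.mem_filter.1 h').1), pow_succ]; ring
  · rfl

theorem sg_erase {J : Finset I} {i : I} (hi : i ∈ J) (j : I) :
    sg O (J.erase i) j = if i < j then -sg O J j else sg O J j := by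
  have h := sg_insert (O := O) (Finset.notMem_erase i J) j
  rw [Finset.insert_erase hi] at h
  rw [h]
  split_ifs <;> simp

theorem dl_apply (x : Finset I → E) (J : Finset I) :
    dl O E x J = ∑ j ∈ J, sg O J j • x (J.erase j) := rfl

theorem dl_dl (x : Finset I → E) : dl O E (dl O E x) = 0 := by
  funext J
  let g : I → I → E := fun i j =>
    if j < i then (sg O J i * sg O J j) • x ((J.erase i).erase j) else 0
  have h1 : ∀ i ∈ J, sg O J i • dl O E x (J.erase i) = ∑ j ∈ J, (g i j - g j i) := by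
    intro i hi
    rw [dl_apply, Finset.smul_sum, ← Finset.add_sum_erase J _ hi, sub_self, zero_add]
    refine Finset.sum_congr rfl fun j hj => ?_
    have hne : j ≠ i := (Finset.mem_erase.1 hj).1
    rw [sg_erase hi, smul_smul]
    rcases lt_or_gt_of_ne hne with h | h
    · simp only [g, if_pos h, if_neg h.not_gt, sub_zero]
    · simp only [g, if_pos h, if_neg h.not_gt, zero_sub]
      rw [Finset.erase_right_comm, mul_neg, neg_smul, mul_comm]
  rw [dl_apply, Finset.sum_congr rfl h1]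
  simp only [Finset.sum_sub_distrib]
  rw [Finset.sum_comm (s := J) (t := J) (f := fun i j => g j i), sub_self]
  rfl

theorem dl_htpy (j : I) (x : Finset I → E) : x =
    dl O E (fun J => if j ∈ J then 0 else sg O J j • x (insert j J)) +
    fun J => if j ∈ J then 0 else sg O J j • dl O E x (insert j J) := by
  funext J
  rw [Pi.add_apply, dl_apply]
  by_cases hj : j ∈ J
  · rw [if_pos hj, add_zero, Finset.sum_eq_single j]
    · rw [if_neg (Finset.notMem_erase j J), sg_erase hj, if_neg (lt_irrefl j), smul_smul, sg_sq,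
        one_smul, Finset.insert_erase hj]
    · intro i _ hne
      rw [if_pos (Finset.mem_erase.2 ⟨hne.symm, hj⟩), smul_zero]
    · intro h; exact (h hj).elim
  · rw [if_neg hj, dl_apply, Finset.sum_insert hj, Finset.erase_insert hj, sg_insert hj,
      if_neg (lt_irrefl j), smul_add, smul_smul, sg_sq, one_smul, Finset.smul_sum,
      add_left_comm, ← Finset.sum_add_distrib, Finset.sum_eq_zero, add_zero]
    intro i hi
    have hne : j ≠ i := fun h => hj (h ▸ hi)
    rw [if_neg (fun h => hj (Finset.mem_of_mem_erase h)), sg_erase hi, sg_insert hj,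
      Finset.erase_insert_of_ne hne, smul_smul, smul_smul, ← add_smul]
    rcases lt_or_gt_of_ne hne with h | h
    · rw [if_pos h, if_neg h.not_gt]
      have : sg O J i * sg O J j + sg O J j * -sg O J i = 0 := by ring
      rw [this, zero_smul]
    · rw [if_pos h, if_neg h.not_gt]
      have : sg O J i * -sg O J j + sg O J j * sg O J i = 0 := by ring
      rw [this, zero_smul]

end Cech

theorem c1 : C1 := by
  intro O E I _ _ _ _
  refine ⟨dl_dl, dl_htpy, fun M hM x hx => ⟨rfl, fun J => ?_⟩⟩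
  rw [dl_apply]
  exact Submodule.sum_mem _ fun j _ =>
    Submodule.smul_mem _ _ (hM _ _ (Finset.erase_subset j J) (hx.2 _))

section Der
variable {Λ σ A : Type} [CommRing Λ] [Fintype σ] [DecidableEq σ] [CommRing A] [Algebra Λ A]
  (tor : σ → Bool)

/-- A derivation along an algebra map that kills the variables vanishes. -/
theorem der_zero (φ : Tor Λ tor →ₐ[Λ] A) (D : Tor Λ tor →ₗ[Λ] A)
    (hD : ∀ a b, D (a * b) = D a * φ b + φ a * D b) (h : ∀ i, D (tX tor Λ i) = 0) (z : Tor Λ tor) :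
    D z = 0 := by
  have h1 : D 1 = 0 := by
    have := hD 1 1
    simp only [mul_one, map_one, one_mul] at this
    exact left_eq_add.1 this
  have hi : ∀ i, D (tXi tor Λ i) = 0 := by
    intro i
    cases ht : tor i
    · have : tXi tor Λ i = 0 := H15.monoZ_not tor fun hm => by
        have := hm i ht
        simp at this
      rw [this, map_zero]
    · have e := hD (tX tor Λ i) (tXi tor Λ i)
      have e1 : φ (tX tor Λ i) * φ (tXi tor Λ i) = 1 := by
        rw [← map_mul, tX_mul_tXi tor i ht, map_one]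
      rw [tX_mul_tXi tor i ht, h1, h i] at e
      linear_combination (-φ (tXi tor Λ i)) * e - D (tXi tor Λ i) * e1
  have hmul : ∀ a b, D a = 0 → D b = 0 → D (a * b) = 0 := by
    intro a b ha hb
    rw [hD, ha, hb]; simp
  have hpow : ∀ a (n : ℕ), D a = 0 → D (a ^ n) = 0 := by
    intro a n ha
    induction n with
    | zero => rw [pow_zero, h1]
    | succ n ih => rw [pow_succ]; exact hmul _ _ ih ha
  refine H15.mono_ind tor (Q := fun z => D z = 0) (map_zero D) (fun a b ha hb => ?_)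
    (fun c u hu => ?_) z
  · rw [map_add, ha, hb, add_zero]
  · rw [map_smul, H15.monoZ_mem tor hu, mono_eq_prod,
      Finset.prod_induction _ (fun z => D z = 0) hmul h1
        fun i _ => hmul _ _ (hpow _ _ (h i)) (hpow _ _ (hi i)), smul_zero]

end Der

section Xi
variable {I τ ι : Type} [LinearOrder I] [Fintype I] [Fintype τ] [DecidableEq τ]
  (Λ : Type) [CommRing Λ]

theorem xi_apply (z : Zr Λ I τ) : xiZ Λ I τ z =
    ∑ v : I, (tX torV Λ (Sum.inl (v, 0)) * pd torV Λ (Sum.inl (v, 2)) z -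
      tX torV Λ (Sum.inl (v, 1)) * pd torV Λ (Sum.inl (v, 3)) z) := by
  simp [xiZ, LinearMap.sum_apply]

theorem xi'_apply (z : Zr Λ I τ) : xiZ' Λ I τ z =
    ∑ v : I, (tX torV Λ (Sum.inl (v, 0)) * pd torV Λ (Sum.inl (v, 1)) z -
      tX torV Λ (Sum.inl (v, 2)) * pd torV Λ (Sum.inl (v, 3)) z) := by
  simp [xiZ', LinearMap.sum_apply]

theorem xi_mul (a b : Zr Λ I τ) :
    xiZ Λ I τ (a * b) = xiZ Λ I τ a * b + a * xiZ Λ I τ b := by
  simp only [xi_apply, H15.leibniz, Finset.sum_mul, Finset.mul_sum, ← Finset.sum_add_distrib]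
  exact Finset.sum_congr rfl fun v _ => by ring

theorem xi'_mul (a b : Zr Λ I τ) :
    xiZ' Λ I τ (a * b) = xiZ' Λ I τ a * b + a * xiZ' Λ I τ b := by
  simp only [xi'_apply, H15.leibniz, Finset.sum_mul, Finset.mul_sum, ← Finset.sum_add_distrib]
  exact Finset.sum_congr rfl fun v _ => by ring

theorem xi_tX (y : Var I τ) : xiZ Λ I τ (tX torV Λ y) = Sum.elim (fun y : I × Fin 4 =>
    if y.2 = 2 then tX torV Λ (Sum.inl (y.1, 0)) else if y.2 = 3 then -tX torV Λ (Sum.inl (y.1, 1))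
    else 0) (fun _ => 0) y := by
  rw [xi_apply]
  simp only [H15.pd_tX]
  rcases y with ⟨v, t⟩ | t
  · fin_cases t <;> simp
  · simp

theorem xi'_tX (y : Var I τ) : xiZ' Λ I τ (tX torV Λ y) = Sum.elim (fun y : I × Fin 4 =>
    if y.2 = 1 then tX torV Λ (Sum.inl (y.1, 0)) else if y.2 = 3 then -tX torV Λ (Sum.inl (y.1, 2))
    else 0) (fun _ => 0) y := by
  rw [xi'_apply]
  simp only [H15.pd_tX]
  rcases y with ⟨v, t⟩ | t
  · fin_cases t <;> simp
  · simp

theorem xi_comm (a : Zr Λ I τ) : xiZ Λ I τ (xiZ' Λ I τ a) = xiZ' Λ I τ (xiZ Λ I τ a) := by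
  have h := der_zero torV (AlgHom.id Λ _) (xiZ Λ I τ ∘ₗ xiZ' Λ I τ - xiZ' Λ I τ ∘ₗ xiZ Λ I τ)
    (fun a b => by
      simp only [LinearMap.sub_apply, LinearMap.comp_apply, xi_mul, xi'_mul, map_add,
        AlgHom.id_apply]
      ring)
    (fun y => by
      simp only [LinearMap.sub_apply, LinearMap.comp_apply]
      rcases y with ⟨v, t⟩ | t
      · fin_cases t <;> simp [xi_tX, xi'_tX]
      · simp [xi_tX, xi'_tX]) a
  simpa only [LinearMap.sub_apply, LinearMap.comp_apply, sub_eq_zero] using h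

theorem c_mul_ci (j : I) :
    tX torV Λ (Sum.inl (j, 0) : Var I τ) * tXi torV Λ (Sum.inl (j, 0)) = 1 :=
  tX_mul_tXi _ _ (by simp [torV])

theorem der_ci (D : Zr Λ I τ →ₗ[Λ] Zr Λ I τ) (hD : ∀ a b, D (a * b) = D a * b + a * D b) (j : I)
    (h : D (tX torV Λ (Sum.inl (j, 0))) = 0) : D (tXi torV Λ (Sum.inl (j, 0))) = 0 := by
  have h1 : D 1 = 0 := by
    have := hD 1 1
    simp only [mul_one, one_mul] at this
    exact left_eq_add.1 this
  have e := hD (tX torV Λ (Sum.inl (j, 0))) (tXi torV Λ (Sum.inl (j, 0)))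
  have e1 := c_mul_ci (τ := τ) Λ j
  rw [e1, h1, h] at e
  linear_combination (-tXi torV Λ (Sum.inl (j, 0))) * e - D (tXi torV Λ (Sum.inl (j, 0))) * e1

theorem xi_n (j : I) : xiZ Λ I τ (nZ Λ τ j) = 1 ∧ xiZ' Λ I τ (nZ Λ τ j) = 0 ∧
    xiZ Λ I τ (nZ' Λ τ j) = 0 ∧ xiZ' Λ I τ (nZ' Λ τ j) = 1 := by
  have h1 := der_ci Λ (xiZ Λ I τ) (xi_mul Λ) j (by simp [xi_tX])
  have h2 := der_ci Λ (xiZ' Λ I τ) (xi'_mul Λ) j (by simp [xi'_tX])
  have e1 := c_mul_ci (τ := τ) Λ j
  simp [nZ, nZ', xi_mul, xi'_mul, h1, h2, xi_tX, xi'_tX, e1]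

theorem xi_sj (j : I) (z : Zr Λ I τ) :
    xiZ Λ I τ (sj Λ τ j z) = 0 ∧ xiZ' Λ I τ (sj Λ τ j z) = 0 := by
  obtain ⟨h1, h2, h3, h4⟩ := xi_n (τ := τ) Λ j
  constructor
  · refine der_zero torV (sj Λ τ j) (xiZ Λ I τ ∘ₗ (sj Λ τ j).toLinearMap)
      (fun a b => by simp [xi_mul]) (fun y => ?_) z
    rw [LinearMap.comp_apply, AlgHom.toLinearMap_apply, sj_tX]
    rcases y with ⟨v, t⟩ | t
    · fin_cases t <;> simp [gshift, xi_mul, xi_tX, h1, h3]
    · simp [gshift, xi_tX]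
  · refine der_zero torV (sj Λ τ j) (xiZ' Λ I τ ∘ₗ (sj Λ τ j).toLinearMap)
      (fun a b => by simp [xi'_mul]) (fun y => ?_) z
    rw [LinearMap.comp_apply, AlgHom.toLinearMap_apply, sj_tX]
    rcases y with ⟨v, t⟩ | t
    · fin_cases t <;> simp [gshift, xi'_mul, xi'_tX, h2, h4]
    · simp [gshift, xi'_tX]

theorem xi_inv (a : Zr Λ I τ) (ha : a ∈ Ainv Λ I τ) : xiZ Λ I τ a = 0 ∧ xiZ' Λ I τ a = 0 := by
  rcases isEmpty_or_nonempty I with h | ⟨⟨j⟩⟩
  · simp [xi_apply, xi'_apply]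
  · have := xi_sj Λ j a
    rwa [(mem_Ainv Λ a).1 ha j] at this

variable (M : Model I τ ι)

theorem Zp_mul (J : Finset I) (w w' : Gam I) (a b : Zr Λ I τ) (ha : a ∈ M.Zp Λ J w)
    (hb : b ∈ M.Zp Λ J w') : a * b ∈ M.Zp Λ J (w + w') :=
  H15.mul_Tp torV (fun v => Sum.inl (v, 0)) M.wtv J w w' a b ha hb

theorem Zp_tX (J : Finset I) (y : Var I τ) : tX torV Λ y ∈ M.Zp Λ J (M.wtv y) :=
  H15.tX_Tp torV (fun v => Sum.inl (v, 0)) M.wtv J y

theorem Zp_xpd (J : Finset I) (w w' : Gam I) (x y : Var I τ) (z : Zr Λ I τ) (hz : z ∈ M.Zp Λ J w)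
    (h : M.wtv x + (w - M.wtv y) = w') : tX torV Λ x * pd torV Λ y z ∈ M.Zp Λ J w' :=
  h ▸ Zp_mul Λ M J _ _ _ _ (Zp_tX Λ M J x)
    (H15.pd_Tp torV (fun v => Sum.inl (v, 0)) M.wtv J w y z hz)

theorem Zp_xi (J : Finset I) (w : Gam I) (z : Zr Λ I τ) (hz : z ∈ M.Zp Λ J w) :
    xiZ Λ I τ z ∈ M.Zp Λ J (w - (0, 0, 2, 0)) ∧ xiZ' Λ I τ z ∈ M.Zp Λ J (w - (0, 0, 0, 2)) := by
  rw [xi_apply, xi'_apply]
  constructor <;>
  · refine Submodule.sum_mem _ fun v _ => Submodule.sub_mem _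
      (Zp_xpd Λ M J w _ _ _ z hz ?_) (Zp_xpd Λ M J w _ _ _ z hz ?_) <;>
    · ext <;> simp [Model.wtv] <;> ring

theorem Zp_ci (J : Finset I) (j : I) (hj : j ∈ J) :
    tXi torV Λ (Sum.inl (j, 0)) ∈ M.Zp Λ J (-M.wtv (Sum.inl (j, 0))) := by
  refine H15.monoZ_supp torV fun _ => ⟨fun v hv => ?_, ?_⟩
  · have : v ≠ j := fun h => hv (h ▸ hj)
    simp [this]
  · rw [Model.wt, Finset.sum_eq_single (Sum.inl (j, 0))]
    · simp
    · intro y _ hy
      rw [Pi.single_eq_of_ne hy, zero_smul]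
    · simp

theorem Zp_n (J : Finset I) (j : I) (hj : j ∈ J) :
    nZ Λ τ j ∈ M.Zp Λ J (0, 0, 2, 0) ∧ nZ' Λ τ j ∈ M.Zp Λ J (0, 0, 0, 2) := by
  constructor
  · have := Zp_mul Λ M J _ _ _ _ (Zp_tX Λ M J (Sum.inl (j, 2))) (Zp_ci Λ M J j hj)
    have e : M.wtv (Sum.inl (j, 2)) + -M.wtv (Sum.inl (j, 0)) = (0, 0, 2, 0) := by
      ext <;> simp [Model.wtv]
    rwa [e] at this
  · have := Zp_mul Λ M J _ _ _ _ (Zp_tX Λ M J (Sum.inl (j, 1))) (Zp_ci Λ M J j hj)
    have e : M.wtv (Sum.inl (j, 1)) + -M.wtv (Sum.inl (j, 0)) = (0, 0, 0, 2) := by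
      ext <;> simp [Model.wtv]
    rwa [e] at this

/-- The linear form `s w₁ + t w₂ + ∑ δ + ε dil` on weights. -/
def lf (s t ε : ℤ) : Gam I →+ ℤ where
  toFun w := s * w.2.2.1 + t * w.2.2.2 + ∑ v, w.1 v + ε * w.2.1
  map_zero' := by simp
  map_add' a b := by simp [Finset.sum_add_distrib]; ring

theorem lf_nonneg (h : M.Good) (s t ε : ℤ) (hst : (s = 1 ∧ t = 0) ∨ (s = 0 ∧ t = 1))
    (hε : ε = 1 ∨ ε = -1) (u : Var I τ → ℤ) (hu : u ∈ Mon torV) : 0 ≤ lf s t ε (M.wt u) := by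
  rw [Model.wt, map_sum]
  refine Finset.sum_nonneg fun y _ => ?_
  rw [map_zsmul, smul_eq_mul]
  cases ht : torV y
  · refine mul_nonneg (hu y ht) ?_
    rcases y with ⟨v, r⟩ | r
    · rcases hst with ⟨rfl, rfl⟩ | ⟨rfl, rfl⟩ <;> fin_cases r <;> simp [lf, Model.wtv]
    · rcases h.dil r with e | e <;> rcases hε with rfl | rfl <;> simp [lf, Model.wtv, e]
  · rcases y with ⟨v, r⟩ | r
    · simp only [torV, decide_eq_true_eq] at ht
      subst ht
      rcases hst with ⟨rfl, rfl⟩ | ⟨rfl, rfl⟩ <;> simp [lf, Model.wtv]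
    · simp [torV] at ht

theorem Zp_bot (h : M.Good) (J : Finset I) (w : Gam I)
    (hw : w.2.2.1 + ∑ v, w.1 v - |w.2.1| < 0 ∨ w.2.2.2 + ∑ v, w.1 v - |w.2.1| < 0) :
    M.Zp Λ J w = ⊥ := by
  rw [eq_bot_iff]
  intro z hz
  rw [Submodule.mem_bot]
  refine H15.supp_ind torV (P := fun u => (∀ v, v ∉ J → 0 ≤ u (Sum.inl (v, 0))) ∧ M.wt u = w)
    (Q := fun z => z = 0) rfl (fun a b ha hb => by rw [ha, hb, add_zero])
    (fun c u hu hP => ?_) hz
  exfalso
  have h1 := lf_nonneg M h 1 0 1 (by simp) (by simp) u hu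
  have h2 := lf_nonneg M h 1 0 (-1) (by simp) (by simp) u hu
  have h3 := lf_nonneg M h 0 1 1 (by simp) (by simp) u hu
  have h4 := lf_nonneg M h 0 1 (-1) (by simp) (by simp) u hu
  rw [hP.2] at h1 h2 h3 h4
  simp only [lf, AddMonoidHom.coe_mk, ZeroHom.coe_mk] at h1 h2 h3 h4
  rcases abs_choice w.2.1 with e | e <;> rw [e] at hw <;> rcases hw with hw | hw <;> linarith

theorem cc_val (J : Finset I) (h : J.card = 3) : (cc Λ τ J).1 =
    (nZ Λ τ (J.orderEmbOfFin h 0) - nZ Λ τ (J.orderEmbOfFin h 1)) *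
      (nZ' Λ τ (J.orderEmbOfFin h 1) - nZ' Λ τ (J.orderEmbOfFin h 2)) := by
  rw [cc, dif_pos h, ← sj_nZ, ← sj_nZ']
  rfl

theorem cc_zero (J : Finset I) (h : J.card ≠ 3) : cc Λ τ J = 0 := dif_neg h

theorem cc_three {a b c : I} (hab : a < b) (hbc : b < c) :
    (cc Λ τ {a, b, c}).1 = (nZ Λ τ a - nZ Λ τ b) * (nZ' Λ τ b - nZ' Λ τ c) := by
  have h : ({a, b, c} : Finset I).card = 3 :=
    Finset.card_eq_three.2 ⟨a, b, c, hab.ne, (hab.trans hbc).ne, hbc.ne, rfl⟩
  have e : (![a, b, c] : Fin 3 → I) = ({a, b, c} : Finset I).orderEmbOfFin h :=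
    Finset.orderEmbOfFin_unique h (fun x => by fin_cases x <;> simp)
      (Fin.strictMono_iff_lt_succ.2 fun x => by fin_cases x <;> simp [hab, hbc])
  rw [cc_val Λ _ h, ← e]
  rfl

theorem dl_cc : dl Λ _ (cc Λ τ : Finset I → Ainv Λ I τ) = 0 := by
  funext J
  rw [dl_apply, Pi.zero_apply]
  by_cases h : J.card = 4
  · obtain ⟨a, b, c, d, hab, hbc, hcd, rfl⟩ : ∃ a b c d, a < b ∧ b < c ∧ c < d ∧
        J = {a, b, c, d} := by
      refine ⟨J.orderEmbOfFin h 0, J.orderEmbOfFin h 1, J.orderEmbOfFin h 2, J.orderEmbOfFin h 3,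
        by simp, by simp, by simp, ?_⟩
      ext x
      constructor
      · intro hx
        have : x ∈ Set.range (J.orderEmbOfFin h) := by
          rw [Finset.range_orderEmbOfFin]; exact hx
        obtain ⟨i, rfl⟩ := this
        fin_cases i <;> simp
      · intro hx
        simp only [Finset.mem_insert, Finset.mem_singleton] at hx
        rcases hx with rfl | rfl | rfl | rfl <;> exact Finset.orderEmbOfFin_mem _ _ _
    have hac := hab.trans hbc
    have hbd := hbc.trans hcd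
    have had := hac.trans hcd
    have na : a ∉ ({b, c, d} : Finset I) := by simp [hab.ne, hac.ne, had.ne]
    have nb : b ∉ ({c, d} : Finset I) := by simp [hbc.ne, hbd.ne]
    have nc : c ∉ ({d} : Finset I) := by simp [hcd.ne]
    have s0 : ∀ x : I, ¬ d < x → sg Λ {d} x = 1 := by
      intro x hx
      simp [sg, Finset.filter_singleton, hx]
    have ea : ({a, b, c, d} : Finset I).erase a = {b, c, d} := Finset.erase_insert na
    have eb : ({a, b, c, d} : Finset I).erase b = {a, c, d} := by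
      rw [Finset.erase_insert_of_ne hab.ne, Finset.erase_insert nb]
    have ec : ({a, b, c, d} : Finset I).erase c = {a, b, d} := by
      rw [Finset.erase_insert_of_ne hac.ne, Finset.erase_insert_of_ne hbc.ne,
        Finset.erase_insert nc]
    have ed : ({a, b, c, d} : Finset I).erase d = {a, b, c} := by
      rw [Finset.erase_insert_of_ne had.ne, Finset.erase_insert_of_ne hbd.ne,
        Finset.erase_insert_of_ne hcd.ne, Finset.erase_singleton]
      rfl
    rw [Finset.sum_insert na, Finset.sum_insert nb, Finset.sum_insert nc, Finset.sum_singleton,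
      ea, eb, ec, ed]
    simp only [sg_insert na, sg_insert nb, sg_insert nc, lt_irrefl, hab, hac, had, hbc, hbd, hcd,
      hab.not_gt, hac.not_gt, hbc.not_gt, if_true, if_false, s0 a had.not_gt, s0 b hbd.not_gt,
      s0 c hcd.not_gt, s0 d (lt_irrefl d), neg_neg, one_smul, neg_smul]
    apply Subtype.ext
    simp only [AddMemClass.coe_add, NegMemClass.coe_neg, ZeroMemClass.coe_zero,
      cc_three Λ hbc hcd, cc_three Λ hac hcd, cc_three Λ hab hbd, cc_three Λ hab hbc]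
    ring
  · refine Finset.sum_eq_zero fun j hj => ?_
    rw [cc_zero Λ _ (fun h3 => h ?_), smul_zero]
    rw [← Finset.card_erase_add_one hj, h3]

end Xi

theorem cx (_s1 : S1) : CX := by
  intro I τ ι _ _ _ _ _ _ M h Λ _
  refine ⟨xi_mul Λ, xi'_mul Λ, xi_comm Λ, xi_tX Λ, xi'_tX Λ, xi_n Λ, xi_inv Λ, Zp_xi Λ M,
    fun J j hj => ⟨(Zp_n Λ M J j hj).1, (Zp_n Λ M J j hj).2, Zp_ci Λ M J j hj⟩,
    fun J => ⟨H15.one_Tp torV (fun v => Sum.inl (v, 0)) M.wtv J, Zp_tX Λ M J⟩, Zp_mul Λ M,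
    fun J J' w hJ z hz u hu => ⟨fun v hv => (hz u hu).1 v fun h' => hv (hJ h'), (hz u hu).2⟩,
    Zp_bot Λ M h⟩

theorem ccc' : CC := by
  intro I τ ι _ _ _ _ _ _ M _ Λ _
  refine ⟨fun J => ?_, dl_cc Λ, cc_val Λ, fun Λ' _ g J => ?_⟩
  · by_cases h : J.card = 3
    · show (cc Λ τ J).1 ∈ M.Zp Λ J (0, 0, 2, 2)
      rw [cc_val Λ J h]
      have m := fun i => Zp_n Λ M J _ (Finset.orderEmbOfFin_mem J h i)
      have := Zp_mul Λ M J _ _ _ _ (Submodule.sub_mem _ (m 0).1 (m 1).1)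
        (Submodule.sub_mem _ (m 1).2 (m 2).2)
      simpa using this
    · rw [cc_zero Λ J h]
      exact Submodule.zero_mem _
  · by_cases h : J.card = 3
    · rw [cc_val Λ J h, cc_val Λ' J h]
      simp only [nZ, nZ', tX, tXi, map_mul, map_sub, H15.tmap_mono]
    · rw [cc_zero Λ J h, cc_zero Λ' J h]
      simp

theorem ccc (_s1 : S1) (_g1 : G1) : CC := ccc'

end Pool.Agent.MP_ea150c_mp.H55
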