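import Pool.Agent.MP_ea150c_mp.H49.SpecK

/-! Reduction of a filtered matrix complex to a minimal model. -/

namespace Pool.Agent.MP_ea150c_mp.H55

open Pool.Agent.MP_ea150c_mp.H49 Matrix

theorem alg {S : Type} [Ring S] {D h Q : S} (DD : D * D = 0) (hh : h * h = 0) (hDh : h * D * h = h)
    (hQ : h * Q = 0) (Qh : Q * h = 0) (QQ : Q * Q = Q)
    (key : (1 - h * D) * Q * (1 - D * h) = (1 - h * D) * (1 - D * h)) {f g : S}
    (hf : f = Q * (1 - D * h)) (hg : g = (1 - h * D) * Q) :
    f * g = Q ∧ g * f = 1 - (D * h + h * D) ∧ f * D * g * f = f * D ∧ g * (f * D * g) = D * g := by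
  have e2 : g * f = 1 - (D * h + h * D) := by
    calc g * f = (1 - h * D) * (Q * Q) * (1 - D * h) := by rw [hf, hg]; noncomm_ring
      _ = 1 - (D * h + h * D) + h * (D * D) * h := by rw [QQ, key]; noncomm_ring
      _ = _ := by rw [DD]; simp
  refine ⟨?_, e2, ?_, ?_⟩
  · calc f * g = Q * Q - Q * D * (h * Q) - (Q * h) * D * Q + Q * D * (h * h) * D * Q := by
          rw [hf, hg]; noncomm_ring
      _ = Q := by rw [QQ, hQ, Qh, hh]; simp
  · calc f * D * g * f = f * D * (g * f) := by noncomm_ring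
      _ = f * D - f * (D * D) * h - Q * D * (h - h * D * h) * D := by rw [e2, hf]; noncomm_ring
      _ = f * D := by rw [DD, hDh]; simp
  · calc g * (f * D * g) = (g * f) * D * g := by noncomm_ring
      _ = D * g - h * (D * D) * g - D * (h - h * D * h) * D * Q := by rw [e2, hg]; noncomm_ring
      _ = D * g := by rw [DD, hDh]; simp

variable {R ι : Type} [CommRing R] [Fintype ι] [DecidableEq ι]

/-- parity of a matrix -/
def Gr (par : ι → Bool) (c : Bool) (A : Matrix ι ι R) : Prop :=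
  ∀ a b, xor (par a) (par b) ≠ c → A a b = 0

omit [DecidableEq ι] in
theorem Gr.mul {par : ι → Bool} {c c' : Bool} {A B : Matrix ι ι R} (hA : Gr par c A)
    (hB : Gr par c' B) : Gr par (xor c c') (A * B) := fun a b hab => by
  rw [Matrix.mul_apply]
  refine Finset.sum_eq_zero fun x _ => ?_
  by_cases h : xor (par a) (par x) = c
  · rw [hB x b, mul_zero]
    revert h hab
    generalize par a = u, par b = v, par x = w
    cases u <;> cases v <;> cases w <;> cases c <;> cases c' <;> simp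
  · rw [hA a x h, zero_mul]

omit [Fintype ι] [DecidableEq ι] in
theorem Gr.sub {par : ι → Bool} {c : Bool} {A B : Matrix ι ι R} (hA : Gr par c A)
    (hB : Gr par c B) : Gr par c (A - B) := fun a b hab => by
  rw [Matrix.sub_apply, hA a b hab, hB a b hab, sub_zero]

omit [Fintype ι] [DecidableEq ι] in
theorem Gr.add {par : ι → Bool} {c : Bool} {A B : Matrix ι ι R} (hA : Gr par c A)
    (hB : Gr par c B) : Gr par c (A + B) := fun a b hab => by
  rw [Matrix.add_apply, hA a b hab, hB a b hab, add_zero]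

omit [Fintype ι] in
theorem gr_diag (par : ι → Bool) (q : ι → R) : Gr par false (diagonal q) := fun a b hab => by
  apply diagonal_apply_ne
  rintro rfl
  simp at hab

omit [Fintype ι] in
theorem gr_one (par : ι → Bool) : Gr par false (1 : Matrix ι ι R) := gr_diag par fun _ => 1

/-- the sign matrix -/
def eps (R : Type) [CommRing R] (par : ι → Bool) : Matrix ι ι R :=
  diagonal fun a => if par a then -1 else 1

theorem Gr.even {par : ι → Bool} {A : Matrix ι ι R} (hA : Gr par false A) :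
    eps R par * A = A * eps R par := by
  ext a b
  rw [eps, diagonal_mul, mul_diagonal]
  by_cases h : xor (par a) (par b) = false
  · have : par a = par b := by simpa using h
    rw [this, mul_comm]
  · rw [hA a b h]; simp

theorem Gr.odd {par : ι → Bool} {A : Matrix ι ι R} (hA : Gr par true A) :
    eps R par * A = -(A * eps R par) := by
  ext a b
  rw [eps, Matrix.neg_apply, diagonal_mul, mul_diagonal]
  by_cases h : xor (par a) (par b) = true
  · revert h
    cases par a <;> cases par b <;> simp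
  · rw [hA a b h]; simp

omit [DecidableEq ι] in
theorem Gr.ev {par : ι → Bool} {A : Matrix ι ι R} (hA : Gr par false A) {x : ι → R}
    (hx : ∀ a, par a = true → x a = 0) (a : ι) (ha : par a = true) : A.mulVec x a = 0 := by
  refine Finset.sum_eq_zero fun b _ => ?_
  change A a b * x b = 0
  by_cases h : par b = true
  · rw [hx b h, mul_zero]
  · rw [hA a b (by simp [ha, h]), zero_mul]

theorem str_eq (M : MM R ι) (k : ℕ) : M.str k = trace (eps R M.par * M.Ψ ^ k) := by
  simp only [MM.str, trace, diag_apply, eps, diagonal_mul]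

/-- respects the filtration -/
def Fil (lev : ι → ℕ) (A : Matrix ι ι R) : Prop :=
  ∀ a b, lev b ≤ 1 → lev b < lev a → A a b = 0

omit [DecidableEq ι] in
theorem Fil.mul {lev : ι → ℕ} {A B : Matrix ι ι R} (hA : Fil lev A) (hB : Fil lev B) :
    Fil lev (A * B) := fun a b h1 h2 => by
  rw [Matrix.mul_apply]
  refine Finset.sum_eq_zero fun x _ => ?_
  by_cases h : lev b < lev x
  · rw [hB x b h1 h, mul_zero]
  · rw [hA a x (by omega) (by omega), zero_mul]

omit [Fintype ι] [DecidableEq ι] in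
theorem Fil.sub {lev : ι → ℕ} {A B : Matrix ι ι R} (hA : Fil lev A) (hB : Fil lev B) :
    Fil lev (A - B) := fun a b h1 h2 => by
  rw [Matrix.sub_apply, hA a b h1 h2, hB a b h1 h2, sub_zero]

omit [Fintype ι] in
theorem fil_diag (lev : ι → ℕ) (q : ι → R) : Fil lev (diagonal q) := fun a b _ h2 => by
  apply diagonal_apply_ne
  rintro rfl
  omega

omit [Fintype ι] [DecidableEq ι] in
theorem mem_W (M : MM R ι) (l : ℕ) (x : ι → R) : x ∈ M.W l ↔ ∀ a, l < M.lev a → x a = 0 := by
  simp only [MM.W, Submodule.mem_pi, Set.mem_univ, forall_true_left]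
  refine forall_congr' fun a => ?_
  split_ifs with h
  · simp only [Submodule.mem_top, true_iff]; omega
  · simp only [Submodule.mem_bot]; exact ⟨fun h _ => h, fun h' => h' (by omega)⟩

omit [DecidableEq ι] in
theorem Fil.memW {M : MM R ι} {A : Matrix ι ι R} (hA : Fil M.lev A) {l : ℕ} (hl : l ≤ 1)
    {x : ι → R} (hx : x ∈ M.W l) : A.mulVec x ∈ M.W l := by
  rw [mem_W] at hx ⊢
  intro a ha
  refine Finset.sum_eq_zero fun b _ => ?_
  change A a b * x b = 0
  by_cases h : l < M.lev b
  · rw [hx b h, mul_zero]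
  · rw [hA a b (by omega) (by omega), zero_mul]

omit [DecidableEq ι] in
theorem sm_map {c : R} {N N' : Submodule R (ι → R)} {A : Matrix ι ι R}
    (h : ∀ x ∈ N, A.mulVec x ∈ N') {y : ι → R} (hy : y ∈ sm c N) : A.mulVec y ∈ sm c N' := by
  obtain ⟨x, hx, rfl⟩ := hy
  exact ⟨A.mulVec x, h x hx, by simp [Matrix.mulVec_smul]⟩

/-- the supertrace does not see the homotopy -/
theorem str_hom (M : MM R ι) {π : R} (G : M.Good π) {h : Matrix ι ι R} (oh : Gr M.par true h)
    (hZ : ∀ z ∈ M.Z, h.mulVec z = 0) (k : ℕ) :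
    trace (eps R M.par * (M.Ψ * (1 - (M.D * h + h * M.D))) ^ k) = trace (eps R M.par * M.Ψ ^ k) := by
  have oD : Gr M.par true M.D := fun a b hab => G.parD a b (by simpa using hab)
  have eΨ : Gr M.par false M.Ψ := fun a b hab => G.parΨ a b (by simpa using hab)
  let C : Matrix ι ι R → Prop := fun N => Gr M.par false N ∧ (∀ z ∈ M.Z, N.mulVec z ∈ M.Z) ∧
    ∀ x, (M.D * N - N * M.D).mulVec x ∈ M.Z
  have Cm : ∀ A B, C A → C B → C (A * B) := fun A B hA hB => by
    refine ⟨hA.1.mul hB.1, fun z hz => ?_, fun x => ?_⟩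
    · rw [← mulVec_mulVec]; exact hA.2.1 _ (hB.2.1 z hz)
    · have : M.D * (A * B) - A * B * M.D = (M.D * A - A * M.D) * B + A * (M.D * B - B * M.D) := by
        noncomm_ring
      rw [this, add_mulVec, ← mulVec_mulVec, ← mulVec_mulVec]
      exact M.Z.add_mem (hA.2.2 _) (hA.2.1 _ (hB.2.2 x))
  have C1 : C 1 := ⟨gr_one _, fun z hz => by simpa using hz, fun x => by simp⟩
  have CΨ : C M.Ψ := ⟨eΨ, G.ZΨ, G.err⟩
  have Cp : ∀ n, C (M.Ψ ^ n) := fun n => by
    induction n with
    | zero => simpa using C1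
    | succ n ih => rw [pow_succ]; exact Cm _ _ ih CΨ
  have Ce : C (1 - (M.D * h + h * M.D)) := by
    refine ⟨(gr_one _).sub ((oD.mul oh).add (oh.mul oD)), fun z hz => ?_, fun x => ?_⟩
    · rw [sub_mulVec, add_mulVec, ← mulVec_mulVec, ← mulVec_mulVec, hZ z hz, hZ _ (G.ZD z hz)]
      simpa using hz
    · have : M.D * (1 - (M.D * h + h * M.D)) - (1 - (M.D * h + h * M.D)) * M.D =
          h * (M.D * M.D) - M.D * M.D * h := by noncomm_ring
      rw [this, G.DD]
      simp
  have kill : ∀ N, C N → trace (eps R M.par * ((M.D * h + h * M.D) * N)) = 0 := fun N hN => by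
    have h1 : h * (M.D * N - N * M.D) = 0 := by
      ext a b
      have h2 := congrFun (hZ _ (hN.2.2 (Pi.single b 1))) a
      rw [mulVec_mulVec, mulVec_single_one] at h2
      exact h2
    have h2 : eps R M.par * ((M.D * h + h * M.D) * N) =
        (eps R M.par * M.D) * (h * N) + eps R M.par * h * M.D * N := by noncomm_ring
    have h3 : eps R M.par * (h * (M.D * N - N * M.D)) =
        eps R M.par * h * M.D * N - (eps R M.par * (h * N)) * M.D := by noncomm_ring
    rw [h1, mul_zero] at h3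
    have h4 := congrArg trace h3
    rw [trace_zero, trace_sub, trace_mul_comm _ M.D, ← mul_assoc M.D] at h4
    rw [h2, oD.odd, neg_mul, trace_add, trace_neg]
    linear_combination -h4
  have main : ∀ N, C N → trace (eps R M.par * (N * (M.Ψ * (1 - (M.D * h + h * M.D))) ^ k)) =
      trace (eps R M.par * (N * M.Ψ ^ k)) := by
    induction k with
    | zero => intro N _; simp
    | succ k ih =>
      intro N hN
      rw [pow_succ', ← mul_assoc N, ih _ (Cm _ _ hN (Cm _ _ CΨ Ce))]
      have h1 : eps R M.par * (N * (M.Ψ * (1 - (M.D * h + h * M.D))) * M.Ψ ^ k) =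
          eps R M.par * (N * M.Ψ ^ (k + 1)) -
            (eps R M.par * (N * M.Ψ)) * ((M.D * h + h * M.D) * M.Ψ ^ k) := by
        rw [pow_succ']; noncomm_ring
      have h2 := kill _ (Cm _ _ (Cp k) (Cm _ _ hN CΨ))
      rw [← mul_assoc (M.D * h + h * M.D), ← mul_assoc (eps R M.par), trace_mul_comm,
        ← mul_assoc (N * M.Ψ), ← (Cm _ _ hN CΨ).1.even] at h2
      rw [h1, trace_sub, h2, sub_zero]
  simpa using main 1 C1

theorem pow_swap {S : Type} [Ring S] (f A g : S) (k : ℕ) :
    (f * A * g) ^ (k + 1) = f * ((A * (g * f)) ^ k * (A * g)) := by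
  induction k with
  | zero => simp [mul_assoc]
  | succ k ih => rw [pow_succ, ih, pow_succ]; noncomm_ring

/-- what is transferred -/
def Tr (π : R) (M M' : MM R ι) : Prop :=
  M'.Good π ∧ (∀ k, 1 ≤ k → M'.str k = M.str k) ∧ (M.H0 π 0 → M'.H0 π 0) ∧
    (∀ e, M.H0 π e → ∃ e', M'.H0 π e') ∧ (M.H1 π → M'.H1 π)

theorem step (M : MM R ι) {π : R} (G : M.Good π) {i j : ι} {d : R} (hl : M.lev i = M.lev j)
    (hl1 : M.lev i ≤ 1) (hp : M.par i ≠ M.par j) (hd : M.D i j * d = 1) :
    ∃ M' : MM R ι, Tr π M M' ∧ (Finset.univ.filter fun i => M'.lev i ≤ 1).card <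
      (Finset.univ.filter fun i => M.lev i ≤ 1).card := by
  have ij : i ≠ j := fun e => hp (by rw [e])
  obtain ⟨h, hh⟩ : ∃ h : Matrix ι ι R, h = of fun a b => if a = j ∧ b = i then d else 0 := ⟨_, rfl⟩
  obtain ⟨Q, hQ⟩ : ∃ Q : Matrix ι ι R, Q = diagonal fun a => if a = i ∨ a = j then 0 else 1 :=
    ⟨_, rfl⟩
  have hm : ∀ (A : Matrix ι ι R) a b, (h * A) a b = if a = j then d * A i b else 0 := by
    intro A a b
    rw [mul_apply, Finset.sum_eq_single i (fun c _ hc => by simp [hh, hc]) (by simp)]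
    by_cases e : a = j <;> simp [hh, e]
  have mh : ∀ (A : Matrix ι ι R) a b, (A * h) a b = if b = i then A a j * d else 0 := by
    intro A a b
    rw [mul_apply, Finset.sum_eq_single j (fun c _ hc => by simp [hh, hc]) (by simp)]
    by_cases e : b = i <;> simp [hh, e]
  have Qm : ∀ (A : Matrix ι ι R) a b, (Q * A) a b = if a = i ∨ a = j then 0 else A a b := by
    intro A a b
    rw [hQ, diagonal_mul]; split_ifs <;> simp
  have mQ : ∀ (A : Matrix ι ι R) a b, (A * Q) a b = if b = i ∨ b = j then 0 else A a b := by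
    intro A a b
    rw [hQ, mul_diagonal]; split_ifs <;> simp
  have Qv : ∀ (x : ι → R) a, Q.mulVec x a = if a = i ∨ a = j then 0 else x a := by
    intro x a
    rw [hQ, mulVec_diagonal]; split_ifs <;> simp
  have hv : ∀ x : ι → R, x i = 0 → h.mulVec x = 0 := by
    intro x hx
    ext a
    refine Finset.sum_eq_zero fun b _ => ?_
    by_cases e : b = i <;> simp [hh, e, hx]
  have a1 : h * h = 0 := by
    ext a b; rw [hm]; simp [hh, ij]
  have a2 : h * M.D * h = h := by
    ext a b
    rw [mh, hm]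
    by_cases e : a = j <;> by_cases e' : b = i <;> simp [hh, e, e']
    linear_combination d * hd
  have a3 : h * Q = 0 := by
    ext a b; rw [mQ]
    by_cases e' : b = i <;> simp [hh, e']
  have a4 : Q * h = 0 := by
    ext a b; rw [Qm]
    by_cases e' : a = j <;> simp [hh, e']
  have a5 : Q * Q = Q := by
    rw [hQ, diagonal_mul_diagonal]
    congr 1; ext a; split_ifs <;> simp
  have a6 : (1 - h * M.D) * Q * (1 - M.D * h) = (1 - h * M.D) * (1 - M.D * h) := by
    ext a b
    rw [mul_apply, mul_apply]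
    refine Finset.sum_congr rfl fun c _ => ?_
    rw [mQ]
    split_ifs with e
    · rcases e with rfl | rfl
      · have : (1 - M.D * h) c b = 0 := by
          rw [Matrix.sub_apply, mh, one_apply, hd]
          simp only [eq_comm, sub_self]
        rw [this, mul_zero, mul_zero]
      · have : (1 - h * M.D) a c = 0 := by
          rw [Matrix.sub_apply, hm, one_apply, mul_comm, hd, sub_self]
        rw [this]
    · rfl
  obtain ⟨f, hf⟩ : ∃ f, f = Q * (1 - M.D * h) := ⟨_, rfl⟩
  obtain ⟨g, hg⟩ : ∃ g, g = (1 - h * M.D) * Q := ⟨_, rfl⟩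
  obtain ⟨b1, b2, b3, b4⟩ := alg G.DD a1 a2 a3 a4 a5 a6 hf hg
  have oD : Gr M.par true M.D := fun a b hab => G.parD a b (by simpa using hab)
  have eΨ : Gr M.par false M.Ψ := fun a b hab => G.parΨ a b (by simpa using hab)
  have oh : Gr M.par true h := fun a b hab => by
    rw [hh, of_apply, if_neg]
    rintro ⟨rfl, rfl⟩
    revert hp hab
    generalize M.par a = u, M.par b = v
    cases u <;> cases v <;> simp
  have eQ : Gr M.par false Q := hQ ▸ gr_diag _ _
  have ef : Gr M.par false f := hf ▸ eQ.mul ((gr_one _).sub (oD.mul oh))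
  have eg : Gr M.par false g := hg ▸ ((gr_one _).sub (oh.mul oD)).mul eQ
  have fD : Fil M.lev M.D := G.fil
  have fh : Fil M.lev h := fun a b _ h2 => by
    rw [hh, of_apply, if_neg]
    rintro ⟨rfl, rfl⟩
    omega
  have fQ : Fil M.lev Q := hQ ▸ fil_diag _ _
  have f1 : Fil M.lev (1 : Matrix ι ι R) := fil_diag _ fun _ => 1
  have ff : Fil M.lev f := hf ▸ fQ.mul (f1.sub (fD.mul fh))
  have fg : Fil M.lev g := hg ▸ (f1.sub (fh.mul fD)).mul fQ
  have hZ : ∀ z ∈ M.Z, h.mulVec z = 0 := fun z hz => hv z (G.Zs z hz i hl1)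
  have frow : ∀ (A : Matrix ι ι R) a b, (f * A) a b =
      if a = i ∨ a = j then 0 else A a b - M.D a j * (d * A i b) := by
    intro A a b
    have : f * A = Q * (A - M.D * (h * A)) := by rw [hf]; noncomm_ring
    rw [this, Qm, Matrix.sub_apply, mul_apply,
      Finset.sum_eq_single j (fun c _ hc => by simp [hm, hc]) (by simp), hm, if_pos rfl]
  have fv0 : ∀ (x : ι → R) a, a = i ∨ a = j → f.mulVec x a = 0 := fun x a ha => by
    rw [hf, ← mulVec_mulVec, Qv, if_pos ha]
  let M' : MM R ι := ⟨f * M.D * g, f * M.Ψ * g, fun a => if a = i ∨ a = j then 2 else M.lev a,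
    M.par, M.Z.map f.mulVecLin⟩
  have lv : ∀ a, M'.lev a = if a = i ∨ a = j then 2 else M.lev a := fun _ => rfl
  have dv : ∀ (c : R) (a : ι), (∀ b, c ∣ (f * M.Ψ) a b) → ∀ b, c ∣ M'.Ψ a b := fun c a hc b => by
    change c ∣ (f * M.Ψ * g) a b
    rw [mul_apply]
    exact Finset.dvd_sum fun x _ => (hc x).mul_right _
  have Wf : ∀ l ≤ 1, ∀ x ∈ M.W l, f.mulVec x ∈ M'.W l := fun l hl' x hx => by
    have h1 := (mem_W _ _ _).1 (ff.memW hl' hx)
    refine (mem_W _ _ _).2 fun a ha => ?_
    rw [lv] at ha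
    split_ifs at ha with e
    · exact fv0 x a e
    · exact h1 a ha
  have WW : ∀ l, ∀ x ∈ M'.W l, l ≤ 1 → x ∈ M.W l ∧ Q.mulVec x = x := fun l x hx hl' => by
    rw [mem_W] at hx ⊢
    have h1 : ∀ a, a = i ∨ a = j → x a = 0 := fun a e => hx a (by rw [lv, if_pos e]; omega)
    refine ⟨fun a ha => ?_, funext fun a => ?_⟩
    · by_cases e : a = i ∨ a = j
      · exact h1 a e
      · exact hx a (by rw [lv, if_neg e]; exact ha)
    · rw [Qv]
      split_ifs with e
      · exact (h1 a e).symm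
      · rfl
  have Wg : ∀ l ≤ 1, ∀ x ∈ M'.W l, g.mulVec x ∈ M.W l := fun l hl' x hx =>
    fg.memW hl' (WW l x hx hl').1
  have Df : ∀ z, M'.D.mulVec (f.mulVec z) = f.mulVec (M.D.mulVec z) := fun z => by
    rw [mulVec_mulVec, mulVec_mulVec]; exact congrArg (·.mulVec z) b3
  have gD : ∀ z, g.mulVec (M'.D.mulVec z) = M.D.mulVec (g.mulVec z) := fun z => by
    rw [mulVec_mulVec, mulVec_mulVec]; exact congrArg (·.mulVec z) b4
  have H0 : ∀ e, M.H0 π e → M'.H0 π (f.mulVec e) := fun e he => by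
    refine ⟨Wf 0 (by omega) e he.1, ef.ev he.2.1, fun x hx h1 => ?_⟩
    obtain ⟨c, z, hz, h2⟩ := he.2.2 (g.mulVec x) (Wg 0 (by omega) x hx)
      (gD x ▸ sm_map (Wg 0 (by omega)) h1)
    refine ⟨c, f.mulVec z, Wf 0 (by omega) z hz, ?_⟩
    have h3 := sm_map (Wf 0 (by omega)) h2
    rwa [mulVec_sub, mulVec_sub, mulVec_smul, mulVec_mulVec x, b1, (WW 0 x hx (by omega)).2,
      ← Df] at h3
  refine ⟨M', ⟨⟨?_, ?_, ?_, ?_, ?_, ?_, ?_, ?_, ?_, ?_⟩, ?_, ?_, fun e he => ⟨_, H0 e he⟩, ?_⟩, ?_⟩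
  · change f * M.D * g * (f * M.D * g) = 0
    rw [mul_assoc (f * M.D), b4, mul_assoc f, ← mul_assoc M.D, G.DD]
    simp
  · exact fun a b hab => ((ef.mul oD).mul eg) a b (by simpa using hab)
  · exact fun a b hab => ((ef.mul eΨ).mul eg) a b (by simpa using hab)
  · intro a b h1 h2
    rw [lv] at h1
    rw [lv, lv] at h2
    change (f * M.D * g) a b = 0
    by_cases e : a = i ∨ a = j
    · rw [mul_assoc, frow, if_pos e]
    · rw [if_neg e] at h2
      split_ifs at h1 h2
      · omega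
      · exact ((ff.mul fD).mul fg) a b h1 h2
  · intro a b h1
    refine dv _ a (fun c => ?_) b
    rw [lv] at h1
    rw [frow]
    split_ifs at h1 ⊢
    · omega
    · refine dvd_sub (G.row1 a c h1) ?_
      by_cases e : M.lev i = 1
      · exact ((G.row1 i c e).mul_left _).mul_left _
      · rw [G.fil a j (by omega) (by omega), zero_mul]; exact dvd_zero _
  · intro a b h1
    refine dv _ a (fun c => ?_) b
    rw [lv] at h1
    rw [frow]
    split_ifs at h1 ⊢
    · exact dvd_zero _
    · rw [G.fil a j (by omega) (by omega), zero_mul, sub_zero]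
      exact G.row2 a c h1
  · rintro _ ⟨z, hz, rfl⟩ a h1
    rw [lv] at h1
    change f.mulVec z a = 0
    split_ifs at h1 with e
    · omega
    · rw [hf, ← mulVec_mulVec, Qv, if_neg e, sub_mulVec, ← mulVec_mulVec, hZ z hz]
      simpa using G.Zs z hz a h1
  · rintro _ ⟨z, hz, rfl⟩
    exact ⟨_, G.ZD z hz, (Df z).symm⟩
  · rintro _ ⟨z, hz, rfl⟩
    refine ⟨_, G.ZΨ z hz, ?_⟩
    change f.mulVec (M.Ψ.mulVec z) = (f * M.Ψ * g).mulVec (f.mulVec z)
    have : g.mulVec (f.mulVec z) = z := by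
      rw [mulVec_mulVec, b2, sub_mulVec, add_mulVec, ← mulVec_mulVec, ← mulVec_mulVec, hZ z hz,
        hZ _ (G.ZD z hz)]
      simp
    rw [← mulVec_mulVec, this, ← mulVec_mulVec]
  · intro x
    refine ⟨_, G.err (g.mulVec x), ?_⟩
    change f.mulVec _ = (f * M.D * g * (f * M.Ψ * g) - f * M.Ψ * g * (f * M.D * g)).mulVec x
    have : f * M.D * g * (f * M.Ψ * g) - f * M.Ψ * g * (f * M.D * g) =
        f * M.D * g * f * M.Ψ * g - f * M.Ψ * (g * (f * M.D * g)) := by noncomm_ring
    rw [this, b3, b4, mulVec_mulVec, mulVec_mulVec]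
    congr 1
    noncomm_ring
  · intro k hk
    obtain ⟨k, rfl⟩ := Nat.exists_eq_add_of_le' hk
    rw [str_eq, str_eq, ← str_hom M G oh hZ, ← b2]
    change trace (eps R M.par * (f * M.Ψ * g) ^ (k + 1)) = _
    rw [pow_swap, ← mul_assoc, ef.even, mul_assoc f, trace_mul_comm, pow_succ]
    congr 1
    noncomm_ring
  · intro he
    simpa using H0 0 he
  · intro he x hx ex h1
    obtain ⟨z, hz, h2⟩ := he (g.mulVec x) (Wg 1 le_rfl x hx) (eg.ev ex)
      (gD x ▸ sm_map (Wg 1 le_rfl) h1)
    refine ⟨f.mulVec z, Wf 1 le_rfl z hz, ?_⟩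
    obtain ⟨u, hu, v, hv', h3⟩ := Submodule.mem_sup.1 h2
    have h4 : M'.Ψ.mulVec x - π • M'.D.mulVec (f.mulVec z) = f.mulVec u + f.mulVec v := by
      rw [← mulVec_add, h3, mulVec_sub, mulVec_smul, Df, mulVec_mulVec (g.mulVec x),
        mulVec_mulVec x]
    rw [h4]
    exact Submodule.add_mem_sup (Wf 0 (by omega) u hu) (sm_map (N' := ⊤) (fun _ _ => trivial) hv')
  · refine Finset.card_lt_card ⟨fun a ha => ?_, fun hs => ?_⟩
    · simp only [Finset.mem_filter, Finset.mem_univ, true_and, lv] at ha ⊢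
      split_ifs at ha
      · omega
      · exact ha
    · have := hs (Finset.mem_filter.2 ⟨Finset.mem_univ i, hl1⟩)
      simp [lv] at this

theorem p1 : P1 := by
  intro R _ π hπ ι _ _ M G
  have key : ∀ (n : ℕ) (M : MM R ι), (Finset.univ.filter fun i => M.lev i ≤ 1).card = n →
      M.Good π → ∃ M' : MM R ι, Tr π M M' ∧ M'.Minimal π ∧
        (Finset.univ.filter fun i => M'.lev i ≤ 1).card ≤ n := by
    intro n
    induction n using Nat.strong_induction_on with
    | _ n ih =>
      intro M hn G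
      by_cases hm : M.Minimal π
      · exact ⟨M, ⟨G, fun _ _ => rfl, id, fun e he => ⟨e, he⟩, id⟩, hm, hn.le⟩
      · simp only [MM.Minimal, not_forall] at hm
        obtain ⟨i, j, h1, h2, h3⟩ := hm
        obtain ⟨d, hd⟩ := ((hπ _).resolve_right h3).exists_right_inv
        obtain ⟨M', t, hc⟩ := step M G h1 h2
          (fun e => h3 (by rw [G.parD i j e]; exact dvd_zero _)) hd
        obtain ⟨M'', t', hm', hc'⟩ := ih _ (hn ▸ hc) M' rfl t.1
        refine ⟨M'', ⟨t'.1, fun k hk => (t'.2.1 k hk).trans (t.2.1 k hk),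
          fun h => t'.2.2.1 (t.2.2.1 h), fun e he => ?_, fun h => t'.2.2.2.2 (t.2.2.2.2 h)⟩,
          hm', by omega⟩
        obtain ⟨e', he'⟩ := t.2.2.2.1 e he
        exact t'.2.2.2.1 e' he'
  obtain ⟨M', t, hm, hc⟩ := key _ M rfl G
  exact ⟨ι, inferInstance, inferInstance, M', t.1, hm, t.2.1, hc, t.2.2.1, t.2.2.2.1, t.2.2.2.2⟩

end Pool.Agent.MP_ea150c_mp.H55
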