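import Pool.Agent.MP_ea150c_mp.H49.SpecV
import Pool.Agent.MP_ea150c_mp.H55.CX

/-! The polynomial cocycle on the charts of both kinds. -/

set_option linter.unusedSectionVars false

namespace Pool.Agent.MP_ea150c_mp.H55

open Pool.Agent.MP_ea150c_mp.H49

section Sets
variable {I : Type} [LinearOrder I]

/-- A triple. -/
def tri (a b c : I) : Finset I := {a, b, c}

theorem mem_tri {a b c x : I} : x ∈ tri a b c ↔ x = a ∨ x = b ∨ x = c := by simp [tri]

theorem ex_three {J : Finset I} (h : J.card = 3) : ∃ a b c, a < b ∧ b < c ∧ J = tri a b c := by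
  refine ⟨J.orderEmbOfFin h 0, J.orderEmbOfFin h 1, J.orderEmbOfFin h 2, by simp, by simp, ?_⟩
  ext x
  constructor
  · intro hx
    have : x ∈ Set.range (J.orderEmbOfFin h) := by
      rw [Finset.range_orderEmbOfFin]; exact hx
    obtain ⟨i, rfl⟩ := this
    fin_cases i <;> simp [mem_tri]
  · intro hx
    rcases mem_tri.1 hx with rfl | rfl | rfl <;> exact Finset.orderEmbOfFin_mem _ _ _

theorem emb_three {a b c : I} (hab : a < b) (hbc : b < c) :
    ∃ h : (tri a b c).card = 3, ((tri a b c).orderEmbOfFin h : Fin 3 → I) = ![a, b, c] := by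
  have h : (tri a b c).card = 3 :=
    Finset.card_eq_three.2 ⟨a, b, c, hab.ne, (hab.trans hbc).ne, hbc.ne, rfl⟩
  exact ⟨h, (Finset.orderEmbOfFin_unique h (fun x => by fin_cases x <;> simp [mem_tri])
    (Fin.strictMono_iff_lt_succ.2 fun x => by fin_cases x <;> simp [hab, hbc])).symm⟩

theorem sum_four {R : Type} [CommRing R] {J : Finset I} (h : J.card = 4) (F : I → Finset I → R) :
    ∃ a b c d, a < b ∧ b < c ∧ c < d ∧ ∑ κ ∈ J, sg R J κ * F κ (J.erase κ) =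
      F a (tri b c d) - F b (tri a c d) + F c (tri a b d) - F d (tri a b c) := by
  obtain ⟨a, b, c, d, hab, hbc, hcd, rfl⟩ : ∃ a b c d, a < b ∧ b < c ∧ c < d ∧
      J = {a, b, c, d} := by
    refine ⟨J.orderEmbOfFin h 0, J.orderEmbOfFin h 1, J.orderEmbOfFin h 2, J.orderEmbOfFin h 3,
      by simp, by simp, by simp, ?_⟩
    ext x
    constructor
    · intro hx
      have : x ∈ Set.range (J.orderEmbOfFin h) := by
        rw [Finset.range_orderEmbOfFin]; exact hx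
      obtain ⟨i, rfl⟩ := this
      fin_cases i <;> simp
    · intro hx
      simp only [Finset.mem_insert, Finset.mem_singleton] at hx
      rcases hx with rfl | rfl | rfl | rfl <;> exact Finset.orderEmbOfFin_mem _ _ _
  refine ⟨a, b, c, d, hab, hbc, hcd, ?_⟩
  have hac := hab.trans hbc
  have hbd := hbc.trans hcd
  have had := hac.trans hcd
  have na : a ∉ ({b, c, d} : Finset I) := by simp [hab.ne, hac.ne, had.ne]
  have nb : b ∉ ({c, d} : Finset I) := by simp [hbc.ne, hbd.ne]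
  have nc : c ∉ ({d} : Finset I) := by simp [hcd.ne]
  have s0 : ∀ x : I, ¬ d < x → sg R {d} x = 1 := by
    intro x hx
    simp [sg, Finset.filter_singleton, hx]
  have ea : ({a, b, c, d} : Finset I).erase a = {b, c, d} := Finset.erase_insert na
  have eb : ({a, b, c, d} : Finset I).erase b = {a, c, d} := by
    rw [Finset.erase_insert_of_ne hab.ne, Finset.erase_insert nb]
  have ec : ({a, b, c, d} : Finset I).erase c = {a, b, d} := by
    rw [Finset.erase_insert_of_ne hac.ne, Finset.erase_insert_of_ne hbc.ne,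
      Finset.erase_insert nc]
  have ed : ({a, b, c, d} : Finset I).erase d = {a, b, c} := by
    rw [Finset.erase_insert_of_ne had.ne, Finset.erase_insert_of_ne hbd.ne,
      Finset.erase_insert_of_ne hcd.ne, Finset.erase_singleton]
    rfl
  rw [Finset.sum_insert na, Finset.sum_insert nb, Finset.sum_insert nc, Finset.sum_singleton,
    ea, eb, ec, ed]
  simp only [sg_insert na, sg_insert nb, sg_insert nc, lt_irrefl, hab, hac, had, hbc, hbd, hcd,
    hab.not_gt, hac.not_gt, hbc.not_gt, if_true, if_false, s0 a had.not_gt, s0 b hbd.not_gt,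
    s0 c hcd.not_gt, s0 d (lt_irrefl d), neg_neg, tri]
  ring

end Sets

section Charts
variable {I E : Type} [LinearOrder I] [Fintype I] [Fintype E] [DecidableEq E]
  (Λ : Type) [CommRing Λ]

/-- The variable `α_v` upstairs. -/
noncomputable def alZ (v : I) : Zr Λ I (Ex0 I) :=
  tX torV Λ (Sum.inr (Sum.inl ⟨v, Finset.notMem_empty v⟩))

/-- The chart coordinates upstairs. -/
noncomputable def xz (w : I) (κ : I ⊕ₗ I) (r : Fin 4) : Zr Λ I (Ex0 I) := ofPoly torV Λ (XP w κ r)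

theorem ofPoly_X (y : Var I (Ex0 I)) : ofPoly torV Λ (MvPolynomial.X y) = tX torV Λ y := by
  simp [ofPoly]

theorem ofPoly_al (v : I) : ofPoly torV Λ (alP ∅ v) = alZ Λ v := by
  rw [alP, dif_pos (Finset.notMem_empty v), ofPoly_X, alZ]

theorem sj_al (j v : I) : sj Λ _ j (alZ Λ v) = alZ Λ v := sj_tX Λ j _

theorem xz_cases (w : I) (κ : I ⊕ₗ I) :
    (∃ j, ∀ r, xz Λ w κ r = tX torV Λ (Sum.inl (j, r))) ∨
    ∃ j, ∀ r, xz Λ w κ r =
      alZ Λ w * tX torV Λ (Sum.inl (j, r)) - alZ Λ j * tX torV Λ (Sum.inl (w, r)) := by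
  rcases hκ : ofLex κ with j | j
  · exact Or.inl ⟨j, fun r => by simp only [xz, XP, hκ, Sum.elim_inl, ofPoly_X]⟩
  · by_cases hj : j = w
    · exact Or.inl ⟨j, fun r => by simp only [xz, XP, hκ, Sum.elim_inr, if_pos hj, ofPoly_X]⟩
    · exact Or.inr ⟨j, fun r => by
        simp only [xz, XP, hκ, Sum.elim_inr, if_neg hj, map_sub, map_mul, ofPoly_X, ofPoly_al]⟩

theorem sj_xz (j w : I) (κ : I ⊕ₗ I) : sj Λ _ j (xz Λ w κ 0) = xz Λ w κ 0 ∧
    sj Λ _ j (xz Λ w κ 1) = xz Λ w κ 1 - nZ' Λ _ j * xz Λ w κ 0 ∧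
    sj Λ _ j (xz Λ w κ 2) = xz Λ w κ 2 - nZ Λ _ j * xz Λ w κ 0 := by
  rcases xz_cases Λ w κ with ⟨v, hv⟩ | ⟨v, hv⟩
  · simp [hv, sj_tX, gshift]
  · simp only [hv, map_sub, map_mul, sj_al, sj_tX, gshift, Fin.reduceEq, if_true, if_false]
    refine ⟨trivial, by ring, by ring⟩

/-- The polynomial cocycle on an increasing triple. -/
noncomputable def nh3 (w : I) (p : ℕ) (a b c : I ⊕ₗ I) : Zr Λ I (Ex0 I) :=
  (xz Λ w a 2 * xz Λ w b 0 - xz Λ w b 2 * xz Λ w a 0) *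
    (xz Λ w b 1 * xz Λ w c 0 - xz Λ w c 1 * xz Λ w b 0) *
    (xz Λ w a 0 ^ (p - 1) * xz Λ w b 0 ^ (p - 2) * xz Λ w c 0 ^ (p - 1))

theorem nh_three (w : I) (p : ℕ) {a b c : I ⊕ₗ I} (hab : a < b) (hbc : b < c) :
    ofPoly torV Λ (NhP w p (tri a b c)) = nh3 Λ w p a b c := by
  obtain ⟨h, e⟩ := emb_three hab hbc
  rw [NhP, dif_pos h, e]
  simp only [map_mul, map_sub, map_pow]
  rfl

theorem sj_nh3 (j w : I) (p : ℕ) (a b c : I ⊕ₗ I) :
    sj Λ _ j (nh3 Λ w p a b c) = nh3 Λ w p a b c := by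
  simp only [nh3, map_mul, map_sub, map_pow, sj_xz]
  ring

theorem sj_nh (j w : I) (p : ℕ) (J : Finset (I ⊕ₗ I)) :
    sj Λ _ j (ofPoly torV Λ (NhP w p J)) = ofPoly torV Λ (NhP w p J) := by
  by_cases h : J.card = 3
  · obtain ⟨a, b, c, hab, hbc, rfl⟩ := ex_three h
    rw [nh_three Λ w p hab hbc, sj_nh3]
  · rw [NhP, dif_neg h, map_zero, map_zero]

variable (G : PG I E)

theorem Zp_cast {J : Finset I} {w w' : Gam I} {z : Zr Λ I (Ex0 I)} (h : z ∈ G.M0.Zp Λ J w)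
    (e : w = w') : z ∈ G.M0.Zp Λ J w' := e ▸ h

theorem Zp_pow (J : Finset I) (w : Gam I) (z : Zr Λ I (Ex0 I)) (h : z ∈ G.M0.Zp Λ J w) (n : ℕ) :
    z ^ n ∈ G.M0.Zp Λ J (n • w) := by
  induction n with
  | zero =>
    rw [pow_zero, zero_smul]
    exact H15.one_Tp torV (fun v => Sum.inl (v, 0)) G.M0.wtv J
  | succ n ih => rw [pow_succ, succ_nsmul]; exact Zp_mul Λ _ J _ _ _ _ ih h

theorem Zp_al (J : Finset I) (v : I) : alZ Λ v ∈ G.M0.Zp Λ J (Pi.single v 1, 1, 0, 0) :=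
  Zp_tX Λ G.M0 J _

theorem Zp_xz (w : I) (κ : I ⊕ₗ I) : ∃ ω, xz Λ w κ 0 ∈ G.M0.Zp Λ ∅ ω ∧
    xz Λ w κ 1 ∈ G.M0.Zp Λ ∅ (ω + (0, 0, 0, 2)) ∧ xz Λ w κ 2 ∈ G.M0.Zp Λ ∅ (ω + (0, 0, 2, 0)) := by
  rcases xz_cases Λ w κ with ⟨v, hv⟩ | ⟨v, hv⟩
  · simp only [hv]
    refine ⟨_, Zp_tX Λ _ _ _, Zp_cast Λ G (Zp_tX Λ _ _ _) ?_, Zp_cast Λ G (Zp_tX Λ _ _ _) ?_⟩ <;>
    · ext <;> simp [Model.wtv]
  · simp only [hv]
    refine ⟨(Pi.single w 1 + Pi.single v 1, 1, -1, -1), ?_, ?_, ?_⟩ <;>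
    · refine Submodule.sub_mem _
        (Zp_cast Λ G (Zp_mul Λ _ _ _ _ _ _ (Zp_al Λ G _ _) (Zp_tX Λ _ _ _)) ?_)
        (Zp_cast Λ G (Zp_mul Λ _ _ _ _ _ _ (Zp_al Λ G _ _) (Zp_tX Λ _ _ _)) ?_) <;>
      · ext <;> simp [Model.wtv, add_comm]

theorem Zp_nh (w : I) (q : ℕ) (J : Finset (I ⊕ₗ I)) :
    ∃ ω, ofPoly torV Λ (NhP w (q + 2) J) ∈ G.M0.Zp Λ ∅ ((q + 2) • ω + (0, 0, 2, 2)) := by
  by_cases h : J.card = 3
  · obtain ⟨a, b, c, hab, hbc, rfl⟩ := ex_three h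
    obtain ⟨ωa, a0, -, a2⟩ := Zp_xz Λ G w a
    obtain ⟨ωb, b0, b1, b2⟩ := Zp_xz Λ G w b
    obtain ⟨ωc, c0, c1, -⟩ := Zp_xz Λ G w c
    refine ⟨ωa + ωb + ωc, ?_⟩
    rw [nh_three Λ w _ hab hbc, nh3]
    have m := Zp_mul Λ G.M0 ∅
    have h1 := Submodule.sub_mem _ (m _ _ _ _ a2 b0)
      (Zp_cast Λ G (m _ _ _ _ b2 a0) (by abel))
    have h2 := Submodule.sub_mem _ (m _ _ _ _ b1 c0)
      (Zp_cast Λ G (m _ _ _ _ c1 b0) (by abel))
    refine Zp_cast Λ G (m _ _ _ _ (m _ _ _ _ h1 h2) (m _ _ _ _ (m _ _ _ _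
      (Zp_pow Λ G _ _ _ a0 _) (Zp_pow Λ G _ _ _ b0 _)) (Zp_pow Λ G _ _ _ c0 _))) ?_
    have e : ((0, 0, 2, 2) : Gam I) = (0, 0, 2, 0) + (0, 0, 0, 2) := by simp
    rw [e, show q + 2 - 1 = q + 1 from rfl, show q + 2 - 2 = q from rfl]
    simp only [add_smul, smul_add, one_smul, two_smul]
    abel
  · rw [NhP, dif_neg h, map_zero]
    exact ⟨0, Submodule.zero_mem _⟩

theorem ab_mem (i : Io G Finset.univ) (u v : I) (huv : G.Pair i u v) :
    abA Λ u v ∈ G.M0.Ap Λ ∅ (G.M0.om i) := by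
  have e : (abA Λ u v).1 = alZ Λ u * tX torV Λ (Sum.inr (Sum.inr v)) := by
    show sj Λ _ u (ofPoly torV Λ (alP ∅ u * beP ∅ v)) = _
    rw [map_mul, ofPoly_al, beP, ofPoly_X, map_mul, sj_al, sj_tX]
    rfl
  show (abA Λ u v).1 ∈ G.M0.Zp Λ ∅ _
  rw [e]
  refine Zp_cast Λ G (Zp_mul Λ _ _ _ _ _ _ (Zp_al Λ G _ _) (Zp_tX Λ _ _ _)) ?_
  rcases huv with ⟨h, rfl, rfl⟩ | ⟨e, rfl, ⟨h1, h2⟩ | ⟨h1, h2⟩⟩
  · ext x
    · simp only [Model.wtv, Model.om, PG.model, Sum.elim_inr, Sum.elim_inl, id, Prod.fst_add,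
        Pi.add_apply, Pi.single_apply]
      split_ifs <;> rfl
    all_goals simp [Model.wtv, Model.om, PG.model]
  · ext <;> simp [Model.wtv, Model.om, PG.model, h1, h2, degO]
  · ext <;> simp [Model.wtv, Model.om, PG.model, h1, h2, degO, add_comm]

theorem xc_mem (g1 : G1) (j : I) (h : G.M0.Good) (p : ℕ) [Fact p.Prime] (x₀ : ℤ_[p])
    (m : Io G Finset.univ → ℤ_[p]) (s : I → I → ℤ_[p]) (l : Io G Finset.univ → ℕ) :
    G.xc h p x₀ m s l ∈ G.M0.Ap ℤ_[p] ∅ (∑ i, l i • G.M0.om i) := by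
  rw [PG.xc, Pi.add_apply, Finset.sum_apply]
  refine Submodule.add_mem _ ?_ (Submodule.sum_mem _ fun i _ => ?_)
  · by_cases hl : l = 0
    · subst hl
      rw [Pi.single_eq_same, Algebra.algebraMap_eq_smul_one]
      refine Submodule.smul_mem _ _ ?_
      simp only [Pi.zero_apply, zero_smul, Finset.sum_const_zero]
      exact H15.one_Tp torV (fun v => Sum.inl (v, 0)) G.M0.wtv ∅
    · rw [Pi.single_eq_of_ne hl]
      exact Submodule.zero_mem _
  · by_cases hl : l = Pi.single i 1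
    · subst hl
      rw [Pi.single_eq_same, Finset.sum_eq_single i (fun j _ hj => by
        rw [Pi.single_eq_of_ne hj, zero_smul]) (by simp), Pi.single_eq_same, one_smul, PG.aI]
      refine Submodule.add_mem _ (Submodule.smul_mem _ _ ?_)
        (Submodule.sum_mem _ fun u _ => Submodule.sum_mem _ fun v _ => ?_)
      · exact (g1 _ _ _ G.M0 h ℤ_[p] j).2.2.2.2.2.1 i ∅
      · split_ifs with huv
        · exact Submodule.smul_mem _ _ (ab_mem ℤ_[p] G i u v huv)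
        · exact Submodule.zero_mem _
    · rw [Pi.single_eq_of_ne hl]
      exact Submodule.zero_mem _

end Charts

theorem vp (g1 : G1) (_s1 : S1) (cx : CX) (cc' : CC) (a1 : A1) : VP := by
  intro I E _ _ _ _ G hG h p _ hp w
  obtain ⟨q, rfl⟩ : ∃ q, p = q + 2 := ⟨p - 2, by omega⟩
  have hw0 : G.M0.w0 = (0, 0, 2, 2) := (a1 I E G hG).2.1
  have h1 : ∀ κ, (gA (q + 2) w κ).1 = xz ℤ_[q + 2] w κ 0 := fun κ => (sj_xz _ w w κ).1
  have h2 : ∀ J, (NhA (q + 2) w J).1 = ofPoly torV ℤ_[q + 2] (NhP w (q + 2) J) :=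
    fun J => sj_nh _ w w _ J
  have hx := xc_mem G g1 w h (q + 2)
  refine ⟨h1, h2, fun J x₀ m s => ?_, fun J x₀ m s l _ => ?_, fun J => ?_, fun J => ?_⟩
  · obtain ⟨ω, hω⟩ := Zp_nh ℤ_[q + 2] G w q J
    refine ⟨ω, fun l _ => ?_⟩
    rw [← h2, ← hw0] at hω
    exact Zp_mul _ _ _ _ _ _ _ hω (hx x₀ m s l)
  · have hc := (cc' _ _ _ G.M0 h ℤ_[q + 2]).1 J
    rw [← hw0] at hc
    rw [zero_add]
    exact Zp_mul _ _ _ _ _ _ _ hc
      ((cx _ _ _ G.M0 h ℤ_[q + 2]).2.2.2.2.2.2.2.2.2.2.2.1 ∅ J _ (Finset.empty_subset J)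
        (hx x₀ m s l))
  · by_cases h4 : J.card = 4
    · obtain ⟨a, b, c, d, hab, hbc, hcd, e⟩ :=
        sum_four h4 fun κ J' => gA (q + 2) w κ ^ (q + 2) * NhA (q + 2) w J'
      refine e.trans (Subtype.ext ?_)
      simp only [AddMemClass.coe_add, AddSubgroupClass.coe_sub, MulMemClass.coe_mul,
        SubmonoidClass.coe_pow, ZeroMemClass.coe_zero, h1, h2, nh_three _ w _ hbc hcd,
        nh_three _ w _ (hab.trans hbc) hcd, nh_three _ w _ hab (hbc.trans hcd),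
        nh_three _ w _ hab hbc, nh3, show q + 2 - 1 = q + 1 from rfl,
        show q + 2 - 2 = q from rfl]
      ring
    · refine Finset.sum_eq_zero fun κ hκ => ?_
      have h3 : (J.erase κ).card ≠ 3 := fun h3 => h4 (by rw [← Finset.card_erase_add_one hκ, h3])
      rw [NhA, NhP, dif_neg h3, map_zero, map_zero, mul_zero, mul_zero]
  · by_cases h3 : J.card = 3
    · obtain ⟨a, b, c, hab, hbc, rfl⟩ := ex_three h3
      have hl : ∀ a b : I, a < b → e1 I a < e1 I b := fun a b hab =>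
        Sum.Lex.inl_lt_inl_iff.2 hab
      have hz : ∀ (j : I) r, xz ℤ_[q + 2] w (e1 I j) r = tX torV _ (Sum.inl (j, r)) :=
        fun j r => ofPoly_X _ _
      have na : a ∉ ({b, c} : Finset I) := by simp [hab.ne, (hab.trans hbc).ne]
      apply Subtype.ext
      have em : (tri a b c).map (e1 I) = tri (e1 I a) (e1 I b) (e1 I c) := by
        ext x
        simp only [Finset.mem_map, mem_tri]
        constructor
        · rintro ⟨y, rfl | rfl | rfl, rfl⟩ <;> simp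
        · rintro (rfl | rfl | rfl) <;> exact ⟨_, by simp, rfl⟩
      rw [em, h2, nh_three _ w _ (hl _ _ hab) (hl _ _ hbc), tri, Finset.prod_insert na,
        Finset.prod_pair hbc.ne]
      simp only [MulMemClass.coe_mul, SubmonoidClass.coe_pow, h1, cc_three _ hab hbc, nh3, hz,
        show q + 2 - 1 = q + 1 from rfl, show q + 2 - 2 = q from rfl, nZ, nZ']
      have ia := c_mul_ci (τ := Ex0 I) ℤ_[q + 2] a
      have ib := c_mul_ci (τ := Ex0 I) ℤ_[q + 2] b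
      have ic := c_mul_ci (τ := Ex0 I) ℤ_[q + 2] c
      generalize tX torV ℤ_[q + 2] (Sum.inl (a, 0) : Var I (Ex0 I)) = ca at *
      generalize tX torV ℤ_[q + 2] (Sum.inl (b, 0) : Var I (Ex0 I)) = cb at *
      generalize tX torV ℤ_[q + 2] (Sum.inl (c, 0) : Var I (Ex0 I)) = cc0 at *
      generalize tXi torV ℤ_[q + 2] (Sum.inl (a, 0) : Var I (Ex0 I)) = ja at *
      generalize tXi torV ℤ_[q + 2] (Sum.inl (b, 0) : Var I (Ex0 I)) = jb at *
      generalize tXi torV ℤ_[q + 2] (Sum.inl (c, 0) : Var I (Ex0 I)) = jc at *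
      generalize tX torV ℤ_[q + 2] (Sum.inl (a, 2) : Var I (Ex0 I)) = da
      generalize tX torV ℤ_[q + 2] (Sum.inl (b, 2) : Var I (Ex0 I)) = db
      generalize tX torV ℤ_[q + 2] (Sum.inl (b, 1) : Var I (Ex0 I)) = ab
      generalize tX torV ℤ_[q + 2] (Sum.inl (c, 1) : Var I (Ex0 I)) = ac
      have k1 : da * cb - db * ca = ca * cb * (da * ja - db * jb) := by
        linear_combination (-da * cb) * ia + db * ca * ib
      have k2 : ab * cc0 - ac * cb = cb * cc0 * (ab * jb - ac * jc) := by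
        linear_combination (-ab * cc0) * ib + ac * cb * ic
      rw [k1, k2]
      ring
    · rw [cc_zero _ J h3, mul_zero, NhA, NhP, dif_neg (by rwa [Finset.card_map]), map_zero,
        map_zero]

end Pool.Agent.MP_ea150c_mp.H55
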